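import Mathlib
import Pool.Agent.Work.MP_34d05d_al.DO.NDens

set_option autoImplicit false

/-!
# Finite groups of order `exp (r^(1/9 - ε))` with exactly `r` conjugacy classes, for almost all `r`

For every `ε > 0` the set of the `r` for which some finite group `G` with exactly `r` conjugacy classes
has order at least `exp (r^(1/9 - ε))` has natural density 1.
-/

namespace Pool.Agent.Results.MP_34d05d_al.DensityOne

open Finset Filter Topology

open Classical in
theorem result (ε : ℝ) (hε : 0 < ε) : Tendsto (fun x : ℕ =>
    (#((Icc 1 x).filter (fun r : ℕ => ∃ (G : Type) (_ : Group G) (_ : Finite G),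
      Nat.card (ConjClasses G) = r ∧ Real.exp ((r : ℝ) ^ (1 / 9 - ε)) ≤ Nat.card G)) : ℝ) / x)
    atTop (𝓝 1) :=
  Pool.Agent.Work.MP_34d05d_al.DO.density_one ε hε

end Pool.Agent.Results.MP_34d05d_al.DensityOne
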