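import Mathlib
import Pool.Agent.Work.MP_34d05d_al.C2
import Pool.Agent.Work.BV.PIV

set_option autoImplicit false

/-!
# Finite soluble groups of order `exp (k(G)^(4/11 - ε))`

For every `ε > 0` and all large `R` there is a finite soluble group `G` with at most `R` conjugacy
classes and of order at least `exp (R^(4/11 - ε))`.

The groups are the automorphism groups of the truncated polynomial algebras `F_p[x]/(x^(n+2))`,
`n = (p - 3)/2`, where `p = 3 mod 4` is a prime such that `(p - 1)/2` has no prime factor below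
`p^θ`, `θ < 1/4`.  The class number of `Aut F_p[x]/(x^(n+2))`, `n < p`, is at most
`p - 1 + p (∑_{d ≤ n} gcd(d, p - 1)^2)`; the primes are found by the linear sieve (Rosser weights)
and the Bombieri-Vinogradov theorem, both proved in `Pool/Agent/Work`.
-/

namespace Pool.Agent.Results.MP_34d05d_al.FewClasses

open Pool.Agent.Work.MP_34d05d_al

theorem result (ε : ℝ) (hε : 0 < ε) :
    ∃ R₀ : ℝ, ∀ R : ℝ, R₀ ≤ R → ∃ (G : Type) (_ : Group G) (_ : Finite G),
      Group.IsSolvable G ∧
      R ^ (4 / 11 - ε) ≤ Nat.card (ConjClasses G) ∧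
      (Nat.card (ConjClasses G) : ℝ) ≤ R ∧
      Real.exp (R ^ (4 / 11 - ε)) ≤ Nat.card G := by
  obtain ⟨R₀, h⟩ := main_aux BV.ld_all BV.pnt_all (min ε (1 / 11)) (lt_min hε (by norm_num))
    (min_le_right _ _)
  refine ⟨max R₀ 1, fun R hR => ?_⟩
  obtain ⟨G, iG, fG, h1, h2, h3, h4⟩ := h R ((le_max_left _ _).trans hR)
  have hR1 : 1 ≤ R := (le_max_right _ _).trans hR
  have h5 : R ^ (4 / 11 - ε) ≤ R ^ (4 / 11 - min ε (1 / 11)) :=
    Real.rpow_le_rpow_of_exponent_le hR1 (by linarith [min_le_left ε (1 / 11)])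
  exact ⟨G, iG, fG, h1, h5.trans h2, h3, (Real.exp_le_exp.2 h5).trans h4⟩

end Pool.Agent.Results.MP_34d05d_al.FewClasses
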